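import Mathlib
import Pool.Agent.H30.DL

set_option autoImplicit false

namespace Pool.Agent.Results.MP_0abb29_gt.Ultra

open Set Pool.Agent.H30

/-- Discretely Lindelof: the closure of every discrete subset is Lindelof. -/
def DiscLind (X : Type) [TopologicalSpace X] : Prop :=
  ∀ D : Set X, DiscreteTopology D → IsLindelof (closure D)

/-- A discrete copy of the space. -/
structure C where
  p : DL.P

instance : TopologicalSpace C := ⊥

instance : DiscreteTopology C := ⟨rfl⟩

theorem result : ∃ (X K : Type) (_ : TopologicalSpace X) (_ : TopologicalSpace K), T1Space X ∧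
    T2Space K ∧ CompactSpace K ∧ DiscLind X ∧ ¬ DiscLind (X × K) := by
  refine ⟨DL.P, OnePoint C, inferInstance, inferInstance, inferInstance, inferInstance,
    inferInstance, DL.dl, fun h => DL.not_lind ⟨?_⟩⟩
  have := (h (range fun p => (p, OnePoint.some (C.mk p))) ?_).image continuous_fst
  · convert this using 1
    refine (eq_univ_of_forall fun p => ?_).symm
    exact ⟨(p, OnePoint.some (C.mk p)), subset_closure (mem_range_self p), rfl⟩
  · refine discreteTopology_iff_isOpen_singleton.2 ?_
    rintro ⟨_, p, rfl⟩
    refine isOpen_induced_iff.2 ⟨Prod.snd ⁻¹' (OnePoint.some '' {C.mk p}), (OnePoint.isOpen_image_coe.2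
      (isOpen_discrete _)).preimage continuous_snd, ?_⟩
    ext ⟨_, q, rfl⟩
    simp [eq_comm]

end Pool.Agent.Results.MP_0abb29_gt.Ultra
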